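import Pool.Agent.TH762.WD.Par

/-!
# NL is contained in parity logspace iff it can name wrong values of functions in NL

We work with predicates and functions of a word over an alphabet of `m` symbols and of natural
numbers in unary. `LF` is the smallest class of functions which contains the zero function, the
successor, the projections, `(x + 1) * (y + 1)`, the length of the word and its symbols, and is
closed under composition and limited recursion (logarithmic space). `OF` is the smallest such class
which is closed under counting paths modulo `2` (this is parity logspace, which is closed under
reductions). `NR (Pd LF)` is NL: the predicates which say that a path leads from `0` to `1` in a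
graph on the numbers up to a polynomial whose edges are in L.

Theorem: NL is contained in parity logspace if and only if for some constant `k` for each function
`f` of a word and a number with values `0, ..., k` whose level sets are in NL there is a function `g`
with values `0, ..., k` whose level sets are in parity logspace with `g ≠ f` everywhere. For `k = 1`
this is the same as computing `f`.

Proof: the values of the reachability relation (in at most `t` steps) at `k` places are coded by a
number; for any `k + 1` codes the number of those codes which are at most the true one is a function
in NL (here the theorem of Immerman and Szelepcsenyi is used, which is proved for the class `NR`)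
with values `0, ..., k`, so one of the codes is excluded. So there is a list of at most `k` candidates
for the values at any `k` places. By `MC.world` for some `d < k` there are `k - d - 1` places such
that their true values together with the value at one further place survive the extensions by `d`
places in exactly one way. By bounded quantifiers one guesses the values at the `k - d - 1` places,
and checks with the recursion whether the values which they give are right.
-/

set_option autoImplicit false

namespace Pool.Agent.Results.MP_269084_lc.AvoidedParity

open Pool.Agent.TH762.WD

/-- NL is contained in parity logspace iff for some `k` the functions with values `0..k` and level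
sets in NL are avoided by functions with values `0..k` and level sets in parity logspace. -/
theorem result (m : ℕ) :
    (∀ (n : ℕ) (R : List (Fin m) → (Fin n → ℕ) → Prop), R ∈ NR (Pd LF) n → R ∈ Pd OF n) ↔
      ∃ k : ℕ, ∀ f : List (Fin m) → (Fin 1 → ℕ) → ℕ,
        (∀ c : ℕ, (fun (w : List (Fin m)) (v : Fin 1 → ℕ) => f w v = c) ∈ NR (Pd LF) 1) →
        (∀ w v, f w v ≤ k) →
        ∃ g : List (Fin m) → (Fin 1 → ℕ) → ℕ, (∀ w v, g w v ≤ k ∧ g w v ≠ f w v) ∧
          ∀ c : ℕ, (fun (w : List (Fin m)) (v : Fin 1 → ℕ) => g w v = c) ∈ Pd OF 1 :=
  law_NR (clo_Pd fcl_LF) (clo_Pd fcl_OF) fun _ _ h => Pd_LF_OF h

end Pool.Agent.Results.MP_269084_lc.AvoidedParity
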